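import Pool.Agent.Lib.MP_0a5adf_nt.TP.Interfaces

/-!
TAO+ module RES: sums of reciprocals in residue classes.
-/

set_option autoImplicit false

namespace Pool.Agent.Lib.MP_0a5adf_nt.H58

open Finset TP

/-- RES. -/
theorem res : ResStatement := by
  intro q k l r hq hqk
  have hqR : (0 : ℝ) < q := by exact_mod_cast hq
  have hkR : (0 : ℝ) < 2 ^ k := by positivity
  have hqkR : (q : ℝ) ≤ 2 ^ k := by exact_mod_cast hqk
  have key : ∀ M : ℕ, 2 ^ k ≤ M →
      ∑ x ∈ (Ico (2 ^ k) (M + 1)).filter (fun x => x % q = r), (1 : ℝ) / x ≤
        (1 + (Real.log M - Real.log (2 ^ k))) / q := by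
    intro M
    induction M using Nat.strong_induction_on with
    | _ M ih =>
      intro hM
      have hMR : (2 : ℝ) ^ k ≤ M := by exact_mod_cast hM
      have hM0 : (0 : ℝ) < M := lt_of_lt_of_le hkR hMR
      have hlog : Real.log (2 ^ k) ≤ Real.log M := Real.log_le_log hkR hMR
      by_cases hr : M % q = r
      · by_cases h2 : 2 ^ k ≤ M - q ∧ q ≤ M
        · -- previous one
          obtain ⟨h2, h3⟩ := h2
          have hlt : M - q < M := by
            have : 0 < 2 ^ k := by positivity
            omega
          have hI := ih (M - q) hlt h2
          have hset : (Ico (2 ^ k) (M + 1)).filter (fun x => x % q = r) =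
              insert M ((Ico (2 ^ k) (M - q + 1)).filter (fun x => x % q = r)) := by
            ext x
            simp only [mem_filter, mem_Ico, mem_insert]
            constructor
            · rintro ⟨⟨h4, h5⟩, h6⟩
              by_cases h7 : x = M
              · exact Or.inl h7
              · right
                refine ⟨⟨h4, ?_⟩, h6⟩
                by_contra h8
                have h9 : x < M := by omega
                have h10 : M < x + q := by omega
                have h11 : M ≡ x [MOD q] := by
                  show M % q = x % q
                  rw [hr, h6]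
                have h12 : q ∣ M - x := (Nat.modEq_iff_dvd' h9.le).1 h11.symm
                have h13 := Nat.le_of_dvd (by omega) h12
                omega
            · rintro (h4 | ⟨⟨h4, h5⟩, h6⟩)
              · subst h4
                exact ⟨⟨hM, by omega⟩, hr⟩
              · exact ⟨⟨h4, by omega⟩, h6⟩
          rw [hset, sum_insert (by
            simp only [mem_filter, mem_Ico, not_and]
            intro h
            omega)]
          have hMq : (0 : ℝ) < (M : ℝ) - q := by
            have : ((2 ^ k : ℕ) : ℝ) ≤ ((M - q : ℕ) : ℝ) := by exact_mod_cast h2
            rw [Nat.cast_sub h3] at this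
            have h5 : (0 : ℝ) < ((2 ^ k : ℕ) : ℝ) := by positivity
            linarith
          have hcast : ((M - q : ℕ) : ℝ) = (M : ℝ) - q := by
            rw [Nat.cast_sub h3]
          rw [hcast] at hI
          have hl : Real.log (M - q) ≤ Real.log M - q / M := by
            have h6 : Real.log (((M : ℝ) - q) / M) ≤ ((M : ℝ) - q) / M - 1 :=
              Real.log_le_sub_one_of_pos (div_pos hMq hM0)
            rw [Real.log_div hMq.ne' hM0.ne'] at h6
            have h7 : ((M : ℝ) - q) / M - 1 = - (q / M) := by
              field_simp
              ring
            linarith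
          have h8 : (1 : ℝ) / M = (q / M) / q := by
            field_simp
          rw [h8]
          calc (q / M : ℝ) / q + _ ≤ (q / M : ℝ) / q +
                (1 + (Real.log (M - q) - Real.log (2 ^ k))) / q := by gcongr
            _ = (q / M + (1 + (Real.log (M - q) - Real.log (2 ^ k)))) / q := by ring
            _ ≤ _ := by
              apply div_le_div_of_nonneg_right _ hqR.le
              linarith
        · have hset : (Ico (2 ^ k) (M + 1)).filter (fun x => x % q = r) = {M} := by
            ext x
            simp only [mem_filter, mem_Ico, mem_singleton]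
            constructor
            · rintro ⟨⟨h4, h5⟩, h6⟩
              by_contra h7
              have h9 : x < M := by omega
              have h11 : M ≡ x [MOD q] := by
                show M % q = x % q
                rw [hr, h6]
              have h12 : q ∣ M - x := (Nat.modEq_iff_dvd' h9.le).1 h11.symm
              have h13 := Nat.le_of_dvd (by omega) h12
              exact h2 ⟨by omega, by omega⟩
            · rintro rfl
              exact ⟨⟨hM, by omega⟩, hr⟩
          rw [hset, sum_singleton]
          have h5 : (1 : ℝ) / M ≤ 1 / q := by
            apply one_div_le_one_div_of_le hqR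
            linarith
          refine h5.trans ?_
          gcongr
          linarith
      · have hset : (Ico (2 ^ k) (M + 1)).filter (fun x => x % q = r) =
            (Ico (2 ^ k) M).filter (fun x => x % q = r) := by
          ext x
          simp only [mem_filter, mem_Ico]
          constructor
          · rintro ⟨⟨h4, h5⟩, h6⟩
            refine ⟨⟨h4, ?_⟩, h6⟩
            rcases Nat.lt_succ_iff_lt_or_eq.1 h5 with h7 | h7
            · exact h7
            · subst h7
              exact absurd h6 hr
          · rintro ⟨⟨h4, h5⟩, h6⟩
            exact ⟨⟨h4, by omega⟩, h6⟩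
        rw [hset]
        by_cases h3 : M = 2 ^ k
        · subst h3
          simp
        · have h4 : 2 ^ k < M := lt_of_le_of_ne hM (Ne.symm h3)
          obtain ⟨m, rfl⟩ : ∃ m, M = m + 1 := ⟨M - 1, by omega⟩
          have hI := ih m (by omega) (by omega)
          refine hI.trans ?_
          gcongr
          · have : 0 < 2 ^ k := by positivity
            have h5 : 0 < m := by omega
            exact_mod_cast h5
          · simp
  rcases Nat.eq_zero_or_pos l with rfl | hl
  · simp only [blk, add_zero, Ico_self, filter_empty, sum_empty]
    positivity
  · have h1 : 2 ^ k < 2 ^ (k + l) := Nat.pow_lt_pow_right (by norm_num) (by omega)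
    have h2 : 2 ^ (k + l) = (2 ^ (k + l) - 1) + 1 := by omega
    have h3 := key (2 ^ (k + l) - 1) (by omega)
    rw [← h2] at h3
    refine h3.trans ?_
    apply div_le_div_of_nonneg_right _ hqR.le
    have h4 : Real.log ((2 ^ (k + l) - 1 : ℕ) : ℝ) ≤ (k + l) * Real.log 2 := by
      have h5 : Real.log ((2 ^ (k + l) - 1 : ℕ) : ℝ) ≤ Real.log ((2 : ℝ) ^ (k + l)) := by
        apply Real.log_le_log
        · have h6 : 0 < 2 ^ k := by positivity
          have : 0 < 2 ^ (k + l) - 1 := by omega
          exact_mod_cast this
        · have : ((2 ^ (k + l) - 1 : ℕ) : ℝ) ≤ ((2 ^ (k + l) : ℕ) : ℝ) := by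
            exact_mod_cast Nat.sub_le _ _
          simpa using this
      rw [Real.log_pow] at h5
      push_cast at h5
      exact h5
    rw [Real.log_pow]
    have h7 : Real.log 2 ≤ 1 := by
      have := Real.log_two_lt_d9
      linarith
    have h8 : (l : ℝ) * Real.log 2 ≤ l := by
      have : (0 : ℝ) ≤ l := by positivity
      nlinarith
    nlinarith

end Pool.Agent.Lib.MP_0a5adf_nt.H58
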